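import Pool.Agent.Helper11.T5.Defs
import Pool.Agent.Helper22.SL.Defs

/-!
# T5a: first facts about the definitions
-/

set_option autoImplicit false

namespace Pool.Agent.Helper11.T5

open Finset Pool.Agent.Helper5.ET Pool.Agent.Helper27.T4 Pool.Agent.Helper27.T5
open Pool.Agent.Helper22.HW Pool.Agent.Helper30.T5 Pool.Agent.Helper57.T5
open Pool.Agent.Helper39.T5 Pool.Agent.Helper50.T5 Pool.Agent.Helper42.T5.Pr

/-! ## admissible vectors -/

theorem TT_adm {ι : Type*} [Fintype ι] [DecidableEq ι] (p a : ι → ℕ) : Adm p a (TT p a) := by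
  intro y hy i
  exact mem_T1.1 ((Fintype.mem_piFinset.1 hy) i)

theorem X1_adm (l : ℕ) : Adm pr (av l) (X1 l) := TT_adm _ _

/-! ## fronts and moduli -/

theorem FF_pos (m l t : ℕ) : 0 < FF m l t := Nj_pos1 _

theorem LLQ_pos (m j t : ℕ) : 0 < LL (QQ m j) t := by
  rw [LL_QQ]
  exact Lp_pos _ _ _

theorem coprime_FF_ps (m l s t : ℕ) (f : Fin 3) : (FF m l s).Coprime (ps t f) :=
  coprime_Nj_sp _ _

theorem coprime_LL_ps (m j : ℕ) {s t : ℕ} (h : s ≤ t) (f : Fin 3) :
    (LL (QQ m j) s).Coprime (ps t f) := by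
  unfold LL
  refine Nat.Coprime.prod_left (fun i hi => ?_)
  rw [mem_range] at hi
  rw [QQ_eq_NN]
  unfold NN
  refine Nat.Coprime.prod_left (fun g _ => ?_)
  refine Nat.Coprime.pow_left _ (coprime_sp ?_)
  have := g.isLt
  have := f.isLt
  omega

theorem LA_eq (m k j : ℕ) : LA m k j = LL (QQ m j) k := rfl

/-! ## the static levels -/

theorem mask_congr {P : Finset (Fin 3)} {x y : Fin 3 → ℕ} (h : ∀ g ∈ P, x g = y g) :
    mask P x = mask P y := by
  funext g
  unfold mask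
  split_ifs with hg
  · exact h g hg
  · rfl

theorem mask_eq {P : Finset (Fin 3)} {x y : Fin 3 → ℕ} (h : mask P x = mask P y) :
    ∀ g ∈ P, x g = y g := by
  intro g hg
  have := congrFun h g
  simpa [mask, hg] using this

/-- the requirements on one side of a static level -/
theorem Ss_ok (m l t : ℕ) : (Ss m l t).Ok Pool.Agent.Helper22.SL.rk3 (Mk m) where
  pos := Nat.mul_pos (FF_pos _ _ _) (LLQ_pos _ _ _)
  cop := fun i => Nat.Coprime.mul_left (coprime_FF_ps _ _ _ _ _) (coprime_LL_ps _ _ le_rfl _)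
  ze := fun _ => le_rfl
  dep := by
    intro i y y' h
    show hkey l (t + 2) i _ = hkey l (t + 2) i _
    rw [mask_congr (y := y')]
    intro g hg
    exact h g (by simpa [Pool.Agent.Helper22.SL.rk3] using hg)
  inj := by
    intro i i' y y' h
    have h1 : hkey l (t + 2) i (mask (univ.filter (fun g => g < i)) y) =
      hkey l (t + 2) i' (mask (univ.filter (fun g => g < i')) y') := h
    simp only [hkey, Prod.mk.injEq, true_and] at h1
    have h2 : i = i' := Fin.ext h1.1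
    subst h2
    refine ⟨rfl, fun j hj => ?_⟩
    exact mask_eq h1.2 j (by simpa [Pool.Agent.Helper22.SL.rk3] using hj)
  size := fun i y => Mk_static m l t i _

theorem cs_eq (m l t : ℕ) (w : Key → ℕ) (y : Fin 3 → ℕ) :
    cs m l t w y = (Ss m l t).cd (ps_prime t) (ps_inj t) w y := rfl

theorem dvd_cs (m l t : ℕ) (w : Key → ℕ) (y : Fin 3 → ℕ) :
    FF m l (t + 1) * LL (QQ m (era l)) t ∣ cs m l t w y := by
  unfold cs Side.cd lc
  exact dvd_fc _ _ _ _ _

theorem cs_lt (m l t : ℕ) (w : Key → ℕ) (y : Fin 3 → ℕ) :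
    cs m l t w y < FF m l (t + 1) * LL (QQ m (era l)) (t + 1) := by
  rw [LL_succ, QQ_eq_NN, ← mul_assoc]
  unfold cs Side.cd lc
  exact fc_lt _ _ _ (Nat.mul_pos (FF_pos _ _ _) (LLQ_pos _ _ _)) _ _

theorem c1_lt (m l : ℕ) (w : Key → ℕ) (x : Fin 3 → ℕ) : c1 m l w x < FF m l 0 :=
  cv_lt pr_prime pr_inj _ _

/-- the residues of the code of the main level -/
theorem c1_cast (m l : ℕ) (w : Key → ℕ) (x : Fin 3 → ℕ) (f : Fin 3) :
    ((c1 m l w x : ℕ) : ZMod (pr f ^ av (ef m 1 l) f)) = cmp1 m l w x f :=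
  cv_cast_comp pr_prime pr_inj _ _ _

/-! ## the keys of a state -/

theorem mask_le (P : Finset (Fin 3)) (x : Fin 3 → ℕ) (g : Fin 3) : mask P x g ≤ x g := by
  unfold mask
  split_ifs
  · exact le_rfl
  · exact Nat.zero_le _

theorem mem_keysOf {m k l i f : ℕ} {y : Fin 3 → ℕ} (hi : i < k + 2) (hf : f < 4)
    (hy : ∀ g, y g < Bd m k l) : ((l, i, 0, f, y) : Key) ∈ keysOf m k l := by
  unfold keysOf
  simp only [mem_product, mem_singleton, mem_range, Fintype.mem_piFinset]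
  exact ⟨trivial, hi, trivial, hf, hy⟩

theorem X1_lt {l : ℕ} {x : Fin 3 → ℕ} (hx : x ∈ X1 l) (g : Fin 3) : x g < Nj l := by
  obtain ⟨_, _, h⟩ := X1_adm l x hx g
  have h1 : pr g ^ av l g ≤ Nj l := by
    unfold Nj NN
    exact Nat.le_of_dvd (Finset.prod_pos (fun i _ => pow_pos (pr_prime i).pos _))
      (Finset.dvd_prod_of_mem _ (mem_univ g))
  nlinarith

theorem hkey_mem_main (m k : ℕ) {l : ℕ} {x : Fin 3 → ℕ} (hx : x ∈ X1 l) (P : Finset (Fin 3))
    (f : Fin 3) : hkey l 1 f (mask P x) ∈ keysOf m k l := by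
  refine mem_keysOf (by omega) (by omega) (fun g => ?_)
  have h1 := mask_le P x g
  have h2 := X1_lt hx g
  unfold Bd
  omega

theorem Ys_lt {m j t : ℕ} {y : Fin 3 → ℕ} (hy : y ∈ Ys m j t) (g : Fin 3) : y g < QQ m j t :=
  (mem_filter.1 (mem_Ys_iff.1 hy g)).2

theorem QQ_le_LA {m k j t : ℕ} (ht : t < k) : QQ m j t ≤ LA m k j := by
  have h1 : LL (QQ m j) (t + 1) ∣ LL (QQ m j) k := LL_dvd _ (by omega)
  rw [LL_succ] at h1
  exact Nat.le_of_dvd (LA_pos m k j) ((dvd_mul_left _ _).trans h1)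

theorem hkey_mem_static {m k l t : ℕ} (ht : t < k) {y : Fin 3 → ℕ} (hy : y ∈ Ys m (era l) t)
    (P : Finset (Fin 3)) (f : Fin 3) : hkey l (t + 2) f (mask P y) ∈ keysOf m k l := by
  refine mem_keysOf (by omega) (by omega) (fun g => ?_)
  have h1 := mask_le P y g
  have h2 := Ys_lt hy g
  have h3 := QQ_le_LA (m := m) (j := era l) ht
  unfold Bd
  omega

theorem key_mem_static {m k l t : ℕ} (ht : t < k) {y : Fin 3 → ℕ} (hy : y ∈ Ys m (era l) t)
    (f : Fin 3) : (Ss m l t).key f y ∈ keysOf m k l := hkey_mem_static ht hy _ f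

theorem lt_of_mem_Vw {m k l v : ℕ} {w : Key → ℕ} (hv : v ∈ Vw m k l w) :
    vlo m k (era l) ≤ v ∧ v < vhi m k l := by
  unfold Vw VW at hv
  rw [mem_filter, mem_Ico] at hv
  exact hv.1

theorem bkey_mem {m k l v : ℕ} (hv : v < vhi m k l) :
    bkey l (Pool.Agent.Helper50.T5.lev v) (v / 2 ^ Pool.Agent.Helper50.T5.lev v) ∈
      keysOf m k l := by
  refine mem_keysOf (by omega) (by omega) (fun g => ?_)
  have h1 : Pool.Agent.Helper50.T5.lev v ≤ v := Nat.log_le_self 4 v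
  have h2 : v / 2 ^ Pool.Agent.Helper50.T5.lev v ≤ v := Nat.div_le_self _ _
  unfold Bd
  fin_cases g
  · simp only [Fin.zero_eta, Matrix.cons_val_zero]
    omega
  · simp only [Fin.mk_one, Matrix.cons_val_one, Matrix.cons_val_zero]
    omega
  · simp

/-! ## the windows below a level -/

/-- the part of the elements below the static level `s` (levels `t ≥ s` and the window) -/
noncomputable def Zw (m k l s : ℕ) (w : Key → ℕ) : Finset ℕ :=
  ((Fintype.piFinset (fun t : Fin (k - s) => Ys m (era l) (s + t))) ×ˢ Vw m k l w).image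
    (fun q => ∑ t : Fin (k - s), cs m l (s + t) w (q.1 t) + Nj l * LA m k (era l) * q.2)

/-- the same in units of `Nj l * LL s` -/
noncomputable def Bw (m k l s : ℕ) (w : Key → ℕ) : Finset ℕ :=
  (Zw m k l s w).image (fun u => u / (Nj l * LL (QQ m (era l)) s))

theorem mem_Zw {m k l s : ℕ} {w : Key → ℕ} {u : ℕ} : u ∈ Zw m k l s w ↔
    ∃ y : ℕ → Fin 3 → ℕ, (∀ t, s ≤ t → t < k → y t ∈ Ys m (era l) t) ∧ ∃ v ∈ Vw m k l w,
      u = ∑ t ∈ Ico s k, cs m l t w (y t) + Nj l * LA m k (era l) * v := by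
  unfold Zw
  simp only [mem_image, mem_product, Fintype.mem_piFinset, Prod.exists]
  have key : ∀ g : ℕ → ℕ, ∑ t ∈ Ico s k, g t = ∑ t : Fin (k - s), g (s + t) := by
    intro g
    rw [Finset.sum_Ico_eq_sum_range, ← Fin.sum_univ_eq_sum_range (fun i => g (s + i))]
  constructor
  · rintro ⟨y, v, ⟨hy, hv⟩, rfl⟩
    refine ⟨fun t => if h : t - s < k - s then y ⟨t - s, h⟩ else 0, ?_, v, hv, ?_⟩
    · intro t h1 h2
      have h3 : t - s < k - s := by omega
      have h4 := hy ⟨t - s, h3⟩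
      simp only [show s + (t - s) = t by omega] at h4
      simp only [dif_pos h3]
      exact h4
    · congr 1
      rw [key]
      refine Finset.sum_congr rfl (fun t _ => ?_)
      have h3 : s + (t : ℕ) - s < k - s := by have := t.2; omega
      have h4 : (⟨s + (t : ℕ) - s, h3⟩ : Fin (k - s)) = t := Fin.ext (by simp)
      simp only [dif_pos h3, h4]
  · rintro ⟨y, hy, v, hv, rfl⟩
    refine ⟨fun t => y (s + t), v, ⟨fun t => hy _ (by omega) (by have := t.2; omega), hv⟩, ?_⟩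
    rw [key]

/-- one more level -/
theorem Zw_split {m k l s : ℕ} {w : Key → ℕ} (h : ℕ) (hs : s + h ≤ k) {u : ℕ}
    (hu : u ∈ Zw m k l s w) : ∃ y : ℕ → Fin 3 → ℕ,
      (∀ r < h, y r ∈ Ys m (era l) (s + r)) ∧ ∃ u' ∈ Zw m k l (s + h) w,
        u = ∑ r ∈ range h, cs m l (s + r) w (y r) + u' := by
  obtain ⟨y, hy, v, hv, rfl⟩ := mem_Zw.1 hu
  refine ⟨fun r => y (s + r), fun r hr => hy _ (by omega) (by omega), _,
    mem_Zw.2 ⟨y, fun t h1 h2 => hy t (by omega) h2, v, hv, rfl⟩, ?_⟩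
  rw [← add_assoc, ← Finset.sum_Ico_consecutive _ (show s ≤ s + h by omega) hs,
    Finset.sum_Ico_eq_sum_range _ s (s + h), Nat.add_sub_cancel_left]

/-- the elements of a state, seen from the static level `s` -/
theorem AA_split {m k l s : ℕ} {w : Key → ℕ} (hs : s ≤ k) :
    AA m k l w ⊆ scaleSet (X1 l) (c1 m l w) s (Ys m (era l)) (fun t y => cs m l t w y)
      (Zw m k l s w) := by
  intro a ha
  unfold AA scaleSet at ha
  rw [mem_image] at ha
  obtain ⟨⟨⟨x, y⟩, u⟩, hq, rfl⟩ := ha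
  simp only [mem_product, Fintype.mem_piFinset, mem_image] at hq
  obtain ⟨⟨hx, hy⟩, v, hv, rfl⟩ := hq
  unfold scaleSet
  rw [mem_image]
  set Y : ℕ → Fin 3 → ℕ := fun t => if h : t < k then y ⟨t, h⟩ else 0 with hY
  have hYt : ∀ t : Fin k, Y t = y t := by
    intro t
    simp [hY]
  refine ⟨((x, fun t : Fin s => Y t),
    ∑ t ∈ Ico s k, cs m l t w (Y t) + Nj l * LA m k (era l) * v), ?_, ?_⟩
  · simp only [mem_product, Fintype.mem_piFinset]
    refine ⟨⟨hx, fun t => ?_⟩, mem_Zw.2 ⟨Y, fun t _ h2 => ?_, v, hv, rfl⟩⟩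
    · have h2 : (t : ℕ) < k := by have := t.2; omega
      have := hy ⟨t, h2⟩
      rw [← hYt] at this
      exact this
    · have := hy ⟨t, h2⟩
      rw [← hYt] at this
      exact this
  · simp only
    have h1 : ∑ t : Fin k, cs m l t w (y t) = ∑ t ∈ range k, cs m l t w (Y t) := by
      rw [← Fin.sum_univ_eq_sum_range (fun t => cs m l t w (Y t))]
      exact Finset.sum_congr rfl (fun t _ => by rw [hYt])
    have h2 : ∑ t : Fin s, cs m l t w (Y t) = ∑ t ∈ range s, cs m l t w (Y t) :=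
      Fin.sum_univ_eq_sum_range (fun t => cs m l t w (Y t)) s
    rw [h1, h2, ← Finset.sum_range_add_sum_Ico _ hs]
    ring

/-- divisibility of the fronts of one state -/
theorem Nj_dvd_FF {m l t : ℕ} (hb : 10 * m ≤ la (era l)) (ht : t + 1 < m) : Nj l ∣ FF m l t := by
  have h := lt_two_ef hb ht
  exact NN_dvd pr (Pool.Agent.Helper50.ET.av_mono (by omega))

theorem dvd_Zw {m k l s : ℕ} {w : Key → ℕ} (hb : 10 * m ≤ la (era l)) (hk : k + 1 < m)
    (hs : s ≤ k) {u : ℕ} (hu : u ∈ Zw m k l s w) :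
    Nj l * LL (QQ m (era l)) s ∣ u := by
  obtain ⟨y, hy, v, hv, rfl⟩ := mem_Zw.1 hu
  refine dvd_add (Finset.dvd_sum (fun t ht => ?_)) ?_
  · rw [mem_Ico] at ht
    refine dvd_trans ?_ (dvd_cs m l t w (y t))
    exact Nat.mul_dvd_mul (Nj_dvd_FF hb (by omega)) (LL_dvd _ ht.1)
  · refine Dvd.dvd.mul_right ?_ _
    exact Nat.mul_dvd_mul_left _ (LL_dvd _ hs)

/-- normalised windows -/
theorem Zw_eq_Bw {m k l s : ℕ} {w : Key → ℕ} (hb : 10 * m ≤ la (era l)) (hk : k + 1 < m)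
    (hs : s ≤ k) {u : ℕ} (hu : u ∈ Zw m k l s w) :
    ∃ b ∈ Bw m k l s w, u = Nj l * LL (QQ m (era l)) s * b := by
  refine ⟨u / (Nj l * LL (QQ m (era l)) s), mem_image_of_mem _ hu, ?_⟩
  rw [Nat.mul_div_cancel' (dvd_Zw hb hk hs hu)]

end Pool.Agent.Helper11.T5
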