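import Pool.Agent.Helper22.HW.Keys
import Pool.Agent.Helper30.T5.Stat
import Pool.Agent.Helper27.T5.Scale
import Pool.Agent.Helper57.T5.Tower
import Pool.Agent.Helper42.T5.Pr
import Pool.Agent.Helper39.T5.Tup
import Pool.Agent.Helper50.T5.Win
import Pool.Agent.Helper73.T5.SAdm

/-!
# T5a: definitions (MP_12a1af)

A state is a position `l` of the chain of T4'.  Parameters: `m` (windows `W m j i`, quotients
`rt m j = 2 ^ (la j / m)`) and the number `k` of static levels.  The static levels have the indices
`t = 0, ..., k - 1`; level `t` is the level `t + 2` of the schedule (level `1` is the main level).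

An element of the state `l` is

  `c1 m l w x + ∑ t < k, cs m l t w (y t) + Nj l * L * v`,   `L = LL (QQ m (era l)) k`,

* `c1` = code of the main triple `x` modulo `Nj (ef m 1 l)` (extensions up to the first front);
* `cs m l t w (y t)` = code of the static level `t`: `< F (t+1) * L (t+1)`, a multiple of
  `F (t+1) * L t`, `= Lg + hash` modulo the prime powers of the level, `F (t+1) = Nj (ef m (t+2) l)`;
  the components of `y t` are in Erdős–Turán families (`Helper73.T5.sU`);
* `v` in the random window set, one element in each block of length `2 ^ lev v`.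

Keys are `(l, level, outer key, family, vector)`; level `0` = window blocks, level `1` = main
level, level `t + 2` = static level `t`; the outer key is `0` here.
-/

set_option autoImplicit false

namespace Pool.Agent.Helper11.T5

open Finset Pool.Agent.Helper5.ET Pool.Agent.Helper27.T4 Pool.Agent.Helper27.T5
open Pool.Agent.Helper22.HW Pool.Agent.Helper30.T5 Pool.Agent.Helper57.T5
open Pool.Agent.Helper39.T5 Pool.Agent.Helper50.T5 Pool.Agent.Helper42.T5.Pr

/-- `(l, level, outer key, family, vector)` -/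
abbrev Key : Type := ℕ × ℕ × ℕ × ℕ × (Fin 3 → ℕ)

/-- number of values of a key -/
noncomputable def Mk (m : ℕ) (q : Key) : ℕ :=
  if q.2.1 = 0 then 2 ^ q.2.2.2.2 0
  else if h : q.2.2.2.1 < 3 then
    (if q.2.1 = 1 then pr ⟨q.2.2.2.1, h⟩ ^ cnt ⟨q.2.2.2.1, h⟩ (ef m 1 q.1)
      else Qf m (era q.1) q.2.1 ⟨q.2.2.2.1, h⟩)
  else 1

/-- the key of the family `f` of the level `i ≥ 1` -/
def hkey (l i : ℕ) (f : Fin 3) (y : Fin 3 → ℕ) : Key := (l, i, 0, f.val, y)

/-- the key of a block of the window -/
def bkey (l L b : ℕ) : Key := (l, 0, 0, 3, ![L, b, 0])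

/-! ## the main level -/

/-- the components of the code of the main level -/
noncomputable def cmp1 (m l : ℕ) (w : Key → ℕ) (x : Fin 3 → ℕ) (f : Fin 3) :
    ZMod (pr f ^ av (ef m 1 l) f) :=
  Lg (pr f) (av (ef m 1 l) f) (x f) +
    ((w (hkey l 1 f (mask (pre l f) x)) : ℕ) : ZMod (pr f ^ av (ef m 1 l) f))

/-- the code of the main level, a number `< Nj (ef m 1 l)` -/
noncomputable def c1 (m l : ℕ) (w : Key → ℕ) (x : Fin 3 → ℕ) : ℕ :=
  cv pr_prime pr_inj (av (ef m 1 l)) (cmp1 m l w x)

/-- admissible main triples -/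
def X1 (l : ℕ) : Finset (Fin 3 → ℕ) := TT pr (av l)

/-! ## the static levels -/

/-- the primes of the static level `t` -/
noncomputable def ps (t : ℕ) (f : Fin 3) : ℕ := sp (3 * (t + 2) + f)

theorem ps_prime (t : ℕ) (f : Fin 3) : (ps t f).Prime := sp_prime _

theorem ps_inj (t : ℕ) : Function.Injective (ps t) := by
  intro f g h
  have h1 := sp_injective h
  exact Fin.ext (by omega)

/-- exponents of the static level `t` in the era `j` -/
noncomputable def es (m j t : ℕ) : Fin 3 → ℕ := zz m j (t + 2)

/-- modulus of the static level `t` in the era `j` -/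
noncomputable def QQ (m j t : ℕ) : ℕ := Qs m j (t + 2)

/-- the front of the level `t` (`0` = main level, `t + 1` = static level `t`) -/
def FF (m l t : ℕ) : ℕ := Nj (ef m (t + 1) l)

/-- the static level `t` of the state `l` -/
noncomputable def Ss (m l t : ℕ) : Side (ps t) Key :=
  ⟨FF m l (t + 1) * LL (QQ m (era l)) t, es m (era l) t, es m (era l) t,
    fun f y => hkey l (t + 2) f (mask (univ.filter (fun g => g < f)) y)⟩

/-- the code of the static level `t` -/
noncomputable def cs (m l t : ℕ) (w : Key → ℕ) (y : Fin 3 → ℕ) : ℕ :=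
  (Ss m l t).cd (ps_prime t) (ps_inj t) w y

/-- the values of the family `f` of the static level `t` (Erdős–Turán sets: no logarithm is lost) -/
noncomputable def Us (m j t : ℕ) (f : Fin 3) : Finset ℕ :=
  (Pool.Agent.Helper73.T5.sU (ps t f) (es m j t f)).filter (fun y => y < QQ m j t)

/-- admissible triples of the static level `t` -/
noncomputable def Ys (m j t : ℕ) : Finset (Fin 3 → ℕ) := Fintype.piFinset (Us m j t)

/-! ## the window -/

/-- product of all static moduli of the era `j` -/
noncomputable def LA (m k j : ℕ) : ℕ := LL (QQ m j) k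

/-- lower end of the window -/
noncomputable def vlo (m k j : ℕ) : ℕ := (10 ^ 6) ^ W m j 1 / LA m k j + 1

/-- the factor of the scales of the era `j` -/
noncomputable def TA (m k j : ℕ) : ℕ := LA m k j * vlo m k j

/-- the elements of the state `l` lie in `[XA l, XA (l + 1))` -/
noncomputable def XA (m k l : ℕ) : ℕ := XT (TA m k) l

/-- upper end of the window -/
noncomputable def vhi (m k l : ℕ) : ℕ :=
  (XA m k (l + 1) - 2 * (FF m l k * LA m k (era l))) / (Nj l * LA m k (era l))

/-- the window set -/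
noncomputable def Vw (m k l : ℕ) (w : Key → ℕ) : Finset ℕ :=
  VW (vlo m k (era l)) (vhi m k l) (fun L b => w (bkey l L b))

/-! ## the sets -/

/-- the set of the state `l` -/
noncomputable def AA (m k l : ℕ) (w : Key → ℕ) : Finset ℕ :=
  scaleSet (X1 l) (c1 m l w) k (Ys m (era l)) (fun t y => cs m l t w y)
    ((Vw m k l w).image (fun v => Nj l * LA m k (era l) * v))

/-- number of representations `n = a + a'` with `a` in the state `l`, `a'` in the state `l'` -/
noncomputable def Rp (m k l l' : ℕ) (w : Key → ℕ) (n : ℕ) : ℕ :=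
  ((AA m k l w ×ˢ AA m k l' w).filter (fun q => q.1 + q.2 = n)).card

/-- bound for the coordinates of the keys of a state -/
noncomputable def Bd (m k l : ℕ) : ℕ := Nj l + LA m k (era l) + vhi m k l + 2

/-- the keys of a state -/
noncomputable def keysOf (m k l : ℕ) : Finset Key :=
  {l} ×ˢ (range (k + 2) ×ˢ ({0} ×ˢ (range 4 ×ˢ Fintype.piFinset (fun _ : Fin 3 => range (Bd m k l)))))

/-! ## first facts -/

theorem LL_QQ (m j t : ℕ) : LL (QQ m j) t = Lp m j (t + 1) := by
  induction t with
  | zero => rw [LL_zero, Lp_one]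
  | succ t ih => rw [LL_succ, ih, QQ, Lp_succ (m := m) (j := j) (s := t + 1) (by omega)]

theorem QQ_eq_NN (m j t : ℕ) : QQ m j t = NN (ps t) (es m j t) := rfl

theorem LA_pos (m k j : ℕ) : 0 < LA m k j := by
  unfold LA
  rw [LL_QQ]
  exact Lp_pos _ _ _

theorem ps_ne2 (t : ℕ) (f : Fin 3) : ps t f ≠ 2 := by
  have := million_lt_sp (3 * (t + 2) + f)
  unfold ps
  omega

theorem Us_sfam (m j t : ℕ) (f : Fin 3) :
    Pool.Agent.Helper73.T5.SFam (ps t f) (es m j t f) (Us m j t f) :=
  (Pool.Agent.Helper73.T5.sfam_sU (ps_prime t f) (ps_ne2 t f) _).mono (filter_subset _ _)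

theorem Ys_adm (m j t : ℕ) : Pool.Agent.Helper73.T5.SAdm (ps t) (es m j t) (Ys m j t) :=
  Pool.Agent.Helper73.T5.sadm_piFinset (Us_sfam m j t)

theorem mem_Ys_iff {m j t : ℕ} {y : Fin 3 → ℕ} : y ∈ Ys m j t ↔ ∀ f, y f ∈ Us m j t f :=
  Fintype.mem_piFinset

theorem Mk_block (m l L b : ℕ) : Mk m (bkey l L b) = 2 ^ L := by
  simp [Mk, bkey]

theorem Mk_main (m l : ℕ) (f : Fin 3) (y : Fin 3 → ℕ) :
    Mk m (hkey l 1 f y) = pr f ^ av (ef m 1 l) f := by
  simp [Mk, hkey, av]

theorem Mk_static (m l t : ℕ) (f : Fin 3) (y : Fin 3 → ℕ) :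
    Mk m (hkey l (t + 2) f y) = ps t f ^ es m (era l) t f := by
  simp [Mk, hkey, Qf, ps, es]

theorem Mk_pos (m : ℕ) (q : Key) : 0 < Mk m q := by
  unfold Mk
  split_ifs with h1 h2 h3
  · positivity
  · exact pow_pos (pr_prime _).pos _
  · exact Qf_pos _ _ _ _
  · exact Nat.one_pos

end Pool.Agent.Helper11.T5
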