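import Mathlib

/-!
# Exponential tail for a sum of bounded independent variables (finite counting form)
-/

namespace Pool.Agent.Helper11.T5

open Finset

variable {κ α : Type*} [Fintype κ] [DecidableEq κ]

theorem exp_le_lin {y : ℝ} (h0 : 0 ≤ y) (h1 : y ≤ 1) : Real.exp y ≤ 1 + 2 * y := by
  have h2 : Real.exp 1 ≤ 3 := Real.exp_one_lt_three.le
  have hc := convexOn_exp.2 (Set.mem_univ (0 : ℝ)) (Set.mem_univ (1 : ℝ))
    (show (0 : ℝ) ≤ 1 - y by linarith) h0 (by ring)
  simp only [smul_eq_mul, mul_zero, zero_add, mul_one, Real.exp_zero] at hc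
  nlinarith

/-- `X k` is a function of the coordinate `k`, between `0` and `B`; the sum of the mean values is at
most `μ` -/
theorem bern (S : κ → Finset α) (X : κ → α → ℝ) (B μ t : ℝ) (hB : 0 < B)
    (h0 : ∀ k, ∀ a ∈ S k, 0 ≤ X k a ∧ X k a ≤ B)
    (hμ : ∑ k, (∑ a ∈ S k, X k a) / (S k).card ≤ μ) :
    ((((Fintype.piFinset S).filter (fun r => 2 * μ + t * B ≤ ∑ k, X k (r k))).card : ℕ) : ℝ) ≤
      Real.exp (-t) * ((Fintype.piFinset S).card : ℝ) := by
  classical
  by_cases hne : ∃ k, (S k).card = 0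
  · obtain ⟨k, hk⟩ := hne
    have h1 : Fintype.piFinset S = ∅ := by
      rw [Finset.eq_empty_iff_forall_notMem]
      intro r hr
      rw [Fintype.mem_piFinset] at hr
      have := hr k
      rw [Finset.card_eq_zero] at hk
      rw [hk] at this
      simp at this
    rw [h1]
    simp
  push Not at hne
  have hpos : ∀ k, (0 : ℝ) < (S k).card := fun k => by
    have := Nat.pos_of_ne_zero (hne k)
    exact_mod_cast this
  -- the exponential moment
  have hmom : ∑ r ∈ Fintype.piFinset S, Real.exp ((∑ k, X k (r k)) / B) ≤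
      Real.exp (2 * μ / B) * ((Fintype.piFinset S).card : ℝ) := by
    have e1 : ∑ r ∈ Fintype.piFinset S, Real.exp ((∑ k, X k (r k)) / B) =
        ∏ k, ∑ a ∈ S k, Real.exp (X k a / B) := by
      rw [Finset.prod_univ_sum]
      refine Finset.sum_congr rfl (fun r _ => ?_)
      rw [Finset.sum_div, Real.exp_sum]
    have e2 : ∀ k, ∑ a ∈ S k, Real.exp (X k a / B) ≤
        (S k).card * Real.exp (2 / B * ((∑ a ∈ S k, X k a) / (S k).card)) := by
      intro k
      have e3 : ∑ a ∈ S k, Real.exp (X k a / B) ≤ ∑ a ∈ S k, (1 + 2 * (X k a / B)) := by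
        refine Finset.sum_le_sum (fun a ha => ?_)
        obtain ⟨h1, h2⟩ := h0 k a ha
        exact exp_le_lin (div_nonneg h1 hB.le) ((div_le_one hB).mpr h2)
      have e4 : ∑ a ∈ S k, (1 + 2 * (X k a / B)) =
          (S k).card * (1 + 2 / B * ((∑ a ∈ S k, X k a) / (S k).card)) := by
        rw [Finset.sum_add_distrib, Finset.sum_const, nsmul_eq_mul, mul_one, ← Finset.mul_sum,
          ← Finset.sum_div]
        have := (hpos k).ne'
        field_simp
      rw [e4] at e3
      refine e3.trans (mul_le_mul_of_nonneg_left ?_ (hpos k).le)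
      have := Real.add_one_le_exp (2 / B * ((∑ a ∈ S k, X k a) / (S k).card))
      linarith
    rw [e1]
    calc ∏ k, ∑ a ∈ S k, Real.exp (X k a / B) ≤
        ∏ k, ((S k).card * Real.exp (2 / B * ((∑ a ∈ S k, X k a) / (S k).card))) :=
          Finset.prod_le_prod (fun k _ => Finset.sum_nonneg (fun a _ => (Real.exp_pos _).le))
            (fun k _ => e2 k)
      _ = Real.exp (2 / B * ∑ k, (∑ a ∈ S k, X k a) / (S k).card) *
          ((Fintype.piFinset S).card : ℝ) := by
          rw [Finset.prod_mul_distrib, ← Real.exp_sum, ← Finset.mul_sum, Fintype.card_piFinset]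
          push_cast
          ring
      _ ≤ Real.exp (2 * μ / B) * ((Fintype.piFinset S).card : ℝ) := by
          refine mul_le_mul_of_nonneg_right ?_ (Nat.cast_nonneg _)
          apply Real.exp_le_exp.mpr
          rw [div_mul_eq_mul_div]
          exact div_le_div_of_nonneg_right (by linarith) hB.le
  -- Markov
  have hmark : ((((Fintype.piFinset S).filter
      (fun r => 2 * μ + t * B ≤ ∑ k, X k (r k))).card : ℕ) : ℝ) *
      Real.exp ((2 * μ + t * B) / B) ≤
      ∑ r ∈ Fintype.piFinset S, Real.exp ((∑ k, X k (r k)) / B) := by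
    calc ((((Fintype.piFinset S).filter
        (fun r => 2 * μ + t * B ≤ ∑ k, X k (r k))).card : ℕ) : ℝ) *
        Real.exp ((2 * μ + t * B) / B) = ∑ r ∈ (Fintype.piFinset S).filter
          (fun r => 2 * μ + t * B ≤ ∑ k, X k (r k)), Real.exp ((2 * μ + t * B) / B) := by
          rw [Finset.sum_const, nsmul_eq_mul]
      _ ≤ ∑ r ∈ (Fintype.piFinset S).filter
          (fun r => 2 * μ + t * B ≤ ∑ k, X k (r k)), Real.exp ((∑ k, X k (r k)) / B) := by
          refine Finset.sum_le_sum (fun r hr => ?_)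
          rw [Finset.mem_filter] at hr
          exact Real.exp_le_exp.mpr (div_le_div_of_nonneg_right hr.2 hB.le)
      _ ≤ _ := Finset.sum_le_sum_of_subset_of_nonneg (Finset.filter_subset _ _)
          (fun r _ _ => (Real.exp_pos _).le)
  have h3 := hmark.trans hmom
  have e5 : (2 * μ + t * B) / B = 2 * μ / B + t := by
    field_simp
  rw [e5, Real.exp_add] at h3
  have h4 : ((((Fintype.piFinset S).filter
      (fun r => 2 * μ + t * B ≤ ∑ k, X k (r k))).card : ℕ) : ℝ) * Real.exp t ≤
      ((Fintype.piFinset S).card : ℝ) := by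
    have hp := Real.exp_pos (2 * μ / B)
    have h5 : Real.exp (2 * μ / B) * (((((Fintype.piFinset S).filter
      (fun r => 2 * μ + t * B ≤ ∑ k, X k (r k))).card : ℕ) : ℝ) * Real.exp t) ≤
      Real.exp (2 * μ / B) * ((Fintype.piFinset S).card : ℝ) := by
      calc _ = ((((Fintype.piFinset S).filter
        (fun r => 2 * μ + t * B ≤ ∑ k, X k (r k))).card : ℕ) : ℝ) *
          (Real.exp (2 * μ / B) * Real.exp t) := by ring
        _ ≤ _ := h3
    exact le_of_mul_le_mul_left h5 hp
  rw [Real.exp_neg, inv_mul_eq_div, le_div_iff₀ (Real.exp_pos t)]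
  exact h4

end Pool.Agent.Helper11.T5
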