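import Pool.Agent.Helper11.T5.Facts

/-!
# T5a: the sets of a state depend only on the keys of the state
-/

set_option autoImplicit false

namespace Pool.Agent.Helper11.T5

open Finset Pool.Agent.Helper5.ET Pool.Agent.Helper27.T4 Pool.Agent.Helper27.T5
open Pool.Agent.Helper22.HW Pool.Agent.Helper30.T5 Pool.Agent.Helper57.T5
open Pool.Agent.Helper39.T5 Pool.Agent.Helper50.T5 Pool.Agent.Helper42.T5.Pr

variable {m k l : ℕ} {w w' : Key → ℕ}

theorem c1_congr (h : ∀ q ∈ keysOf m k l, w q = w' q) {x : Fin 3 → ℕ} (hx : x ∈ X1 l) :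
    c1 m l w x = c1 m l w' x := by
  unfold c1
  congr 1
  funext f
  unfold cmp1
  rw [h _ (hkey_mem_main m k hx _ f)]

theorem cs_congr (h : ∀ q ∈ keysOf m k l, w q = w' q) {t : ℕ} (ht : t < k) {y : Fin 3 → ℕ}
    (hy : y ∈ Ys m (era l) t) : cs m l t w y = cs m l t w' y := by
  unfold cs Side.cd lc
  congr 1
  funext f
  unfold Side.rho
  rw [h _ (key_mem_static ht hy f)]

theorem Vw_congr (h : ∀ q ∈ keysOf m k l, w q = w' q) : Vw m k l w = Vw m k l w' := by
  unfold Vw VW
  refine Finset.filter_congr (fun v hv => ?_)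
  rw [mem_Ico] at hv
  show v % 2 ^ Pool.Agent.Helper50.T5.lev v = w (bkey l (Pool.Agent.Helper50.T5.lev v)
      (v / 2 ^ Pool.Agent.Helper50.T5.lev v)) ↔ v % 2 ^ Pool.Agent.Helper50.T5.lev v =
    w' (bkey l (Pool.Agent.Helper50.T5.lev v) (v / 2 ^ Pool.Agent.Helper50.T5.lev v))
  rw [h _ (bkey_mem hv.2)]

/-- the set of a state depends only on the keys of the state -/
theorem AA_congr (h : ∀ q ∈ keysOf m k l, w q = w' q) : AA m k l w = AA m k l w' := by
  unfold AA scaleSet
  rw [Vw_congr h]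
  refine Finset.image_congr ?_
  rintro ⟨⟨x, y⟩, u⟩ hq
  simp only [coe_product, Set.mem_prod, mem_coe, Fintype.mem_piFinset] at hq
  show (c1 m l w x + ∑ t : Fin k, cs m l t w (y t)) + u =
    (c1 m l w' x + ∑ t : Fin k, cs m l t w' (y t)) + u
  rw [c1_congr h hq.1.1, Finset.sum_congr rfl (fun t _ => cs_congr h t.2 (hq.1.2 t))]

/-- the number of representations depends only on the keys of the two states -/
theorem Rp_congr {l' : ℕ} (h : ∀ q ∈ keysOf m k l, w q = w' q)
    (h' : ∀ q ∈ keysOf m k l', w q = w' q) (n : ℕ) : Rp m k l l' w n = Rp m k l l' w' n := by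
  unfold Rp
  rw [AA_congr h, AA_congr h']

end Pool.Agent.Helper11.T5
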