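import Pool.Agent.Helper11.T4.Label
import Pool.Agent.Helper44.T4.Fin

/-!
# T5 (MP_12a1af_nt): the final step

From sets for all horizons, with a bound for one pair of dyadic blocks, to one set with a bound for
the representation function.
-/

set_option autoImplicit false

namespace Pool.Agent.Helper11.T5

open Finset Pool.Agent.Helper44.T4

/-- one horizon: the label trick for a finite set -/
theorem horizon (e : ℝ) (he : 0 ≤ e) (C : ℝ) (hC : 0 ≤ C) (K0 : ℕ) (hK0 : 7 ≤ K0)
    (A : Finset ℕ)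
    (hP : ∀ K K' : ℕ, K0 ≤ K' → K' ≤ K → ∀ n : ℕ,
      (((A ×ˢ A).filter (fun q => (2 ^ (K - 1) ≤ q.1 ∧ q.1 < 2 ^ K) ∧
        (2 ^ (K' - 1) ≤ q.2 ∧ q.2 < 2 ^ K') ∧ q.1 + q.2 = n)).card : ℝ) ≤ C * (K : ℝ) ^ e) :
    ∃ B : Set ℕ,
      (∀ n : ℕ, (rep B n : ℝ) ≤ 6 * (C * ((Nat.log 2 n + 1 : ℕ) : ℝ) ^ e)) ∧
      ∀ x l : ℕ, K0 ≤ l → 2 ^ (l + 1) ≤ x →
        (A.filter (fun a => a < 2 ^ l)).card ≤
          2 ^ (K0 - 1) + 2 * l ^ 3 * (B ∩ Set.Iio x).ncard := by
  classical
  have hmono : Monotone (fun K : ℕ => C * (K : ℝ) ^ e) := by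
    intro K K' h
    exact mul_le_mul_of_nonneg_left
      (Real.rpow_le_rpow (Nat.cast_nonneg _) (by exact_mod_cast h) he) hC
  obtain ⟨B, hB1, hB2⟩ := Pool.Agent.Helper11.T4.label
    (A := fun K => A.filter (fun a => 2 ^ (K - 1) ≤ a ∧ a < 2 ^ K)) (K0 := K0) hK0 hmono
    (fun K => mul_nonneg hC (Real.rpow_nonneg (Nat.cast_nonneg _) _))
    (fun K _ a ha => (mem_filter.1 ha).2)
    (by
      intro K K' h1 h2 n
      refine le_trans ?_ (hP K K' h1 h2 n)
      have hsub : ((A.filter (fun a => 2 ^ (K - 1) ≤ a ∧ a < 2 ^ K)) ×ˢ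
          (A.filter (fun a => 2 ^ (K' - 1) ≤ a ∧ a < 2 ^ K'))).filter
            (fun q => q.1 + q.2 = n) ⊆
          (A ×ˢ A).filter (fun q => (2 ^ (K - 1) ≤ q.1 ∧ q.1 < 2 ^ K) ∧
            (2 ^ (K' - 1) ≤ q.2 ∧ q.2 < 2 ^ K') ∧ q.1 + q.2 = n) := by
        intro q hq
        simp only [mem_filter, mem_product] at hq ⊢
        exact ⟨⟨hq.1.1.1, hq.1.2.1⟩, hq.1.1.2, hq.1.2.2, hq.2⟩
      exact_mod_cast card_le_card hsub)
  refine ⟨B, hB1, ?_⟩
  intro x l hl hx
  -- decomposition into dyadic blocks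
  have hsub : A.filter (fun a => a < 2 ^ l) ⊆
      range (2 ^ (K0 - 1)) ∪ (Icc K0 l).biUnion
        (fun K => A.filter (fun a => 2 ^ (K - 1) ≤ a ∧ a < 2 ^ K)) := by
    intro a ha
    rw [mem_filter] at ha
    rw [mem_union, mem_range, mem_biUnion]
    by_cases h1 : a < 2 ^ (K0 - 1)
    · exact Or.inl h1
    · right
      push Not at h1
      have ha0 : a ≠ 0 := by
        have : 0 < 2 ^ (K0 - 1) := pow_pos (by norm_num) _
        omega
      refine ⟨Nat.log 2 a + 1, ?_, ?_⟩
      · rw [mem_Icc]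
        constructor
        · have := Nat.le_log_of_pow_le (b := 2) (by norm_num) h1
          omega
        · have h3 : Nat.log 2 a < l := Nat.log_lt_of_lt_pow ha0 ha.2
          omega
      · rw [mem_filter]
        refine ⟨ha.1, ?_, Nat.lt_pow_succ_log_self (by norm_num) a⟩
        simpa using Nat.pow_log_le_self 2 ha0
  refine (card_le_card hsub).trans ((card_union_le _ _).trans ?_)
  rw [card_range]
  refine Nat.add_le_add_left ?_ _
  refine card_biUnion_le.trans ?_
  have hb : ∀ K ∈ Icc K0 l, (A.filter (fun a => 2 ^ (K - 1) ≤ a ∧ a < 2 ^ K)).card ≤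
      2 * l ^ 2 * (B ∩ Set.Iio x).ncard := by
    intro K hK
    rw [mem_Icc] at hK
    refine (hB2 K hK.1 x (le_trans (Nat.pow_le_pow_right (by norm_num) (by omega)) hx)).trans ?_
    exact Nat.mul_le_mul_right _ (Nat.mul_le_mul_left _ (Nat.pow_le_pow_left hK.2 2))
  refine (sum_le_sum hb).trans ?_
  rw [sum_const, smul_eq_mul, Nat.card_Icc]
  have h1 : l + 1 - K0 ≤ l := by omega
  refine (Nat.mul_le_mul_right _ h1).trans (le_of_eq ?_)
  ring

theorem log_ge (n : ℕ) (hn : 2 ≤ n) : Real.log 2 ≤ Real.log n :=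
  Real.log_le_log (by norm_num) (by exact_mod_cast hn)

theorem natlog_le (n : ℕ) (hn : 2 ≤ n) : ((Nat.log 2 n + 1 : ℕ) : ℝ) ≤ 3 * Real.log n := by
  have hl2 : (0.69 : ℝ) < Real.log 2 := by linarith [Real.log_two_gt_d9]
  have h0 : n ≠ 0 := by omega
  have h1 : ((Nat.log 2 n : ℕ) : ℝ) * Real.log 2 ≤ Real.log n := by
    have h2 : 2 ^ Nat.log 2 n ≤ n := Nat.pow_log_le_self 2 h0
    have h4 : ((2 : ℝ) ^ Nat.log 2 n) ≤ n := by exact_mod_cast h2
    have h5 := Real.log_le_log (by positivity) h4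
    rwa [Real.log_pow] at h5
  have h2 := log_ge n hn
  push_cast
  have h3 : (0 : ℝ) ≤ ((Nat.log 2 n : ℕ) : ℝ) := Nat.cast_nonneg _
  nlinarith

/-- **final step of T5**: from one pair of dyadic blocks, for every horizon -/
theorem final_of_pairs (e : ℝ) (he : 0 ≤ e) (C : ℝ) (hC : 0 < C) (c K0 : ℕ)
    (h : ∀ S : ℕ, ∃ A : Finset ℕ,
      (∀ K K' : ℕ, K0 ≤ K' → K' ≤ K → ∀ n : ℕ,
        (((A ×ˢ A).filter (fun q => (2 ^ (K - 1) ≤ q.1 ∧ q.1 < 2 ^ K) ∧
          (2 ^ (K' - 1) ≤ q.2 ∧ q.2 < 2 ^ K') ∧ q.1 + q.2 = n)).card : ℝ) ≤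
            C * (K : ℝ) ^ e) ∧
      ∀ l : ℕ, K0 ≤ l → l < S →
        √((2 : ℝ) ^ l) ≤ C * (l : ℝ) ^ c * ((A.filter (fun a => a < 2 ^ l)).card : ℝ)) :
    ∃ (A : Set ℕ) (C' : ℝ) (c' : ℕ), 0 < C' ∧
      (∀ n : ℕ, 2 ≤ n →
        (({q : ℕ × ℕ | q.1 ∈ A ∧ q.2 ∈ A ∧ q.1 + q.2 = n}.ncard : ℕ) : ℝ) ≤
          C' * (Real.log n) ^ e) ∧
      ∀ x : ℕ, 2 ≤ x →
        Real.sqrt x / (C' * (Real.log x) ^ c') ≤ ((A ∩ Set.Iio x).ncard : ℝ) := by
  classical
  -- enlarge K0
  set K1 := max K0 7 with hK1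
  have hK17 : 7 ≤ K1 := le_max_right _ _
  have hK10 : K0 ≤ K1 := le_max_left _ _
  have hl2 : (0.69 : ℝ) < Real.log 2 := by linarith [Real.log_two_gt_d9]
  have hl2' : Real.log 2 < 1 := by linarith [Real.log_two_lt_d9]
  set C2 : ℝ := 6 * (C * 3 ^ e) + 2 / (Real.log 2) ^ e with hC2
  set C3 : ℝ := 2 ^ (K1 + 2) / (Real.log 2) ^ (c + 3) +
    2 * C * 3 ^ c * (2 ^ K1 * (1 / Real.log 2) ^ 3 + 2 * 3 ^ 3) with hC3
  have h3e : (0 : ℝ) ≤ 3 ^ e := Real.rpow_nonneg (by norm_num) _
  have hl2e : (0 : ℝ) < (Real.log 2) ^ e := Real.rpow_pos_of_pos (by linarith) _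
  have hC2p : 0 < C2 := by
    have : 0 < 2 / (Real.log 2) ^ e := by positivity
    have h2 : 0 ≤ 6 * (C * 3 ^ e) := by positivity
    linarith
  have hC3p : 0 < C3 := by
    have h1 : 0 < Real.log 2 := by linarith
    positivity
  have hC' : 0 < C2 + C3 := by linarith
  obtain ⟨A, h1, h2⟩ := limit_rep_count
    (fun n => if 2 ≤ n then (C2 + C3) * (Real.log n) ^ e else 2)
    (fun x => if 2 ≤ x then Real.sqrt x / ((C2 + C3) * (Real.log x) ^ (c + 3)) else 0)
    (by
      intro M
      obtain ⟨A, hA1, hA2⟩ := h (M + 1)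
      obtain ⟨B, hB1, hB2⟩ := horizon e he C hC.le K1 hK17 A
        (fun K K' hK hK' n => hA1 K K' (hK10.trans hK) hK' n)
      refine ⟨insert 1 B, ?_, ?_⟩
      · intro n _
        by_cases hn : 2 ≤ n
        · simp only [if_pos hn]
          have e1 : ((rep (insert 1 B) n : ℕ) : ℝ) ≤ (rep B n : ℝ) + 2 := by
            exact_mod_cast rep_insert_le B 1 n
          have e2 := hB1 n
          have e3 := natlog_le n hn
          have e4 := log_ge n hn
          have e5 : ((Nat.log 2 n + 1 : ℕ) : ℝ) ^ e ≤ 3 ^ e * (Real.log n) ^ e := by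
            rw [← Real.mul_rpow (by norm_num) (by linarith)]
            exact Real.rpow_le_rpow (Nat.cast_nonneg _) e3 he
          have e6 : (Real.log 2) ^ e ≤ (Real.log n) ^ e :=
            Real.rpow_le_rpow (by linarith) e4 he
          have e7 : (2 : ℝ) ≤ 2 / (Real.log 2) ^ e * (Real.log n) ^ e := by
            rw [div_mul_eq_mul_div, le_div_iff₀ hl2e]
            nlinarith
          have e8 : (0 : ℝ) ≤ (Real.log n) ^ e := Real.rpow_nonneg (by linarith) _
          calc ((rep (insert 1 B) n : ℕ) : ℝ) ≤ 6 * (C * ((Nat.log 2 n + 1 : ℕ) : ℝ) ^ e) + 2 := by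
                linarith
            _ ≤ 6 * (C * (3 ^ e * (Real.log n) ^ e)) + 2 / (Real.log 2) ^ e * (Real.log n) ^ e := by
                have := mul_le_mul_of_nonneg_left e5 hC.le
                linarith
            _ = C2 * (Real.log n) ^ e := by rw [hC2]; ring
            _ ≤ (C2 + C3) * (Real.log n) ^ e := by
                apply mul_le_mul_of_nonneg_right _ e8
                linarith
        · simp only [if_neg hn]
          have e1 := rep_le_succ (insert 1 B) n
          have e2 : rep (insert 1 B) n ≤ 2 := by omega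
          exact_mod_cast e2
      · intro x hxM
        by_cases hx : 2 ≤ x
        swap
        · simp only [if_neg hx]
          positivity
        simp only [if_pos hx]
        have hlx := log_ge x hx
        have hlx0 : 0 < Real.log x := by linarith
        have hfin : ((insert 1 B) ∩ Set.Iio x : Set ℕ).Finite :=
          (Set.finite_Iio x).subset Set.inter_subset_right
        have hone : 1 ≤ ((insert 1 B) ∩ Set.Iio x : Set ℕ).ncard := by
          rw [Nat.one_le_iff_ne_zero, Ne, Set.ncard_eq_zero hfin]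
          intro hemp
          have : (1 : ℕ) ∈ ((insert 1 B) ∩ Set.Iio x : Set ℕ) :=
            ⟨Set.mem_insert _ _, by simp only [Set.mem_Iio]; omega⟩
          rw [hemp] at this
          exact this
        set q : ℝ := (((insert 1 B) ∩ Set.Iio x : Set ℕ).ncard : ℝ) with hq
        have hq1 : 1 ≤ q := by rw [hq]; exact_mod_cast hone
        have hden : 0 < (C2 + C3) * (Real.log x) ^ (c + 3) := by positivity
        rw [div_le_iff₀ hden]
        have hpl : (Real.log 2) ^ (c + 3) ≤ (Real.log x) ^ (c + 3) :=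
          pow_le_pow_left₀ (by linarith) hlx _
        have hsx0 : 0 ≤ Real.sqrt (x : ℝ) := Real.sqrt_nonneg _
        by_cases hxs : x < 2 ^ (K1 + 1)
        · -- small x
          have a1 : Real.sqrt (x : ℝ) ≤ 2 ^ (K1 + 2) := by
            rw [Real.sqrt_le_left (by positivity)]
            have a2 : (x : ℝ) ≤ 2 ^ (K1 + 1) := by exact_mod_cast hxs.le
            have a3 : (2 : ℝ) ^ (K1 + 1) ≤ (2 ^ (K1 + 2)) ^ 2 := by
              rw [← pow_mul]
              exact pow_le_pow_right₀ (by norm_num) (by omega)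
            linarith
          have a4 : (2 : ℝ) ^ (K1 + 2) ≤ C3 * (Real.log x) ^ (c + 3) := by
            have a5 : (2 : ℝ) ^ (K1 + 2) / (Real.log 2) ^ (c + 3) ≤ C3 := by
              rw [hC3]
              have : 0 ≤ 2 * C * 3 ^ c * (2 ^ K1 * (1 / Real.log 2) ^ 3 + 2 * 3 ^ 3) := by
                have h1 : 0 < Real.log 2 := by linarith
                positivity
              linarith
            have a6 : 0 < (Real.log 2) ^ (c + 3) := by
              have : 0 < Real.log 2 := by linarith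
              positivity
            rw [div_le_iff₀ a6] at a5
            have a7 := mul_le_mul_of_nonneg_left hpl hC3p.le
            linarith
          have a8 : 0 ≤ C2 * (Real.log x) ^ (c + 3) := by positivity
          have a9 : (2 : ℝ) ^ (K1 + 2) ≤ (C2 + C3) * (Real.log x) ^ (c + 3) := by linarith
          calc Real.sqrt (x : ℝ) ≤ (C2 + C3) * (Real.log x) ^ (c + 3) * 1 := by linarith
            _ ≤ q * ((C2 + C3) * (Real.log x) ^ (c + 3)) := by
                rw [mul_comm q]
                exact mul_le_mul_of_nonneg_left hq1 hden.le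
        · push Not at hxs
          have hx0 : x ≠ 0 := by omega
          set l := Nat.log 2 x with hl
          have b1 : K1 + 1 ≤ l := by rw [hl]; exact Nat.le_log_of_pow_le (by norm_num) hxs
          have b2 : 2 ^ l ≤ x := Nat.pow_log_le_self 2 hx0
          have b3 : x < 2 ^ (l + 1) := Nat.lt_pow_succ_log_self (by norm_num) x
          have b4 : l - 1 < M + 1 := by
            have : l < 2 ^ l := Nat.lt_two_pow_self
            omega
          have b5 := hA2 (l - 1) (by omega) b4
          have b6 := hB2 x (l - 1) (by omega) (by rw [show l - 1 + 1 = l by omega]; exact b2)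
          have b7 : (B ∩ Set.Iio x).ncard ≤ ((insert 1 B) ∩ Set.Iio x : Set ℕ).ncard :=
            Set.ncard_le_ncard (Set.inter_subset_inter_left _ (Set.subset_insert _ _)) hfin
          have b7' : ((B ∩ Set.Iio x).ncard : ℝ) ≤ q := by rw [hq]; exact_mod_cast b7
          have b8 : ((A.filter (fun a => a < 2 ^ (l - 1))).card : ℝ) ≤
              2 ^ (K1 - 1) + 2 * (((l - 1 : ℕ)) : ℝ) ^ 3 * ((B ∩ Set.Iio x).ncard : ℝ) := by
            exact_mod_cast b6
          have b9 : (((l - 1 : ℕ)) : ℝ) ≤ 3 * Real.log x := by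
            have c1 := natlog_le x hx
            rw [← hl] at c1
            have c2 : (((l - 1 : ℕ)) : ℝ) ≤ ((l + 1 : ℕ) : ℝ) := by
              exact_mod_cast (by omega : l - 1 ≤ l + 1)
            linarith
          have b0 : (0 : ℝ) ≤ (((l - 1 : ℕ)) : ℝ) := Nat.cast_nonneg _
          have b10 : Real.sqrt (x : ℝ) ≤ 2 * √((2 : ℝ) ^ (l - 1)) := by
            have h5 : (x : ℝ) ≤ 2 ^ 2 * (2 : ℝ) ^ (l - 1) := by
              have : x ≤ 2 ^ 2 * 2 ^ (l - 1) := by
                rw [← pow_add, show 2 + (l - 1) = l + 1 by omega]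
                exact b3.le
              exact_mod_cast this
            calc √(x : ℝ) ≤ √(2 ^ 2 * (2 : ℝ) ^ (l - 1)) := Real.sqrt_le_sqrt h5
              _ = 2 * √((2 : ℝ) ^ (l - 1)) := by
                rw [Real.sqrt_mul (by norm_num), Real.sqrt_sq (by norm_num)]
          have b11 : (2 : ℝ) ^ (K1 - 1) ≤ 2 ^ K1 * (1 / Real.log 2) ^ 3 * (Real.log x) ^ 3 := by
            have c1 : (2 : ℝ) ^ (K1 - 1) ≤ 2 ^ K1 := pow_le_pow_right₀ (by norm_num) (by omega)
            have c2 : (1 : ℝ) ≤ (1 / Real.log 2) ^ 3 * (Real.log x) ^ 3 := by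
              rw [← mul_pow]
              apply one_le_pow₀
              rw [one_div, inv_mul_eq_div, le_div_iff₀ (by linarith)]
              linarith
            have c3 : (0 : ℝ) < 2 ^ K1 := by positivity
            calc (2 : ℝ) ^ (K1 - 1) ≤ 2 ^ K1 * 1 := by linarith
              _ ≤ 2 ^ K1 * ((1 / Real.log 2) ^ 3 * (Real.log x) ^ 3) :=
                mul_le_mul_of_nonneg_left c2 c3.le
              _ = _ := by ring
          have b12 : (((l - 1 : ℕ)) : ℝ) ^ 3 ≤ 3 ^ 3 * (Real.log x) ^ 3 := by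
            rw [← mul_pow]
            exact pow_le_pow_left₀ b0 b9 3
          have b13 : (((l - 1 : ℕ)) : ℝ) ^ c ≤ 3 ^ c * (Real.log x) ^ c := by
            rw [← mul_pow]
            exact pow_le_pow_left₀ b0 b9 c
          have hlx3 : (0 : ℝ) ≤ (Real.log x) ^ 3 := by positivity
          have hlxc : (0 : ℝ) ≤ (Real.log x) ^ c := by positivity
          have b14 : ((A.filter (fun a => a < 2 ^ (l - 1))).card : ℝ) ≤
              (2 ^ K1 * (1 / Real.log 2) ^ 3 + 2 * 3 ^ 3) * (Real.log x) ^ 3 * q := by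
            have c1 : (2 : ℝ) ^ (K1 - 1) ≤ 2 ^ K1 * (1 / Real.log 2) ^ 3 * (Real.log x) ^ 3 * q := by
              have c2 : 0 ≤ (2 : ℝ) ^ K1 * (1 / Real.log 2) ^ 3 * (Real.log x) ^ 3 := by
                have h1 : 0 < Real.log 2 := by linarith
                positivity
              nlinarith
            have c3 : 2 * (((l - 1 : ℕ)) : ℝ) ^ 3 * ((B ∩ Set.Iio x).ncard : ℝ) ≤
                2 * (3 ^ 3 * (Real.log x) ^ 3) * q := by
              apply mul_le_mul _ b7' (Nat.cast_nonneg _) (by positivity)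
              linarith
            calc ((A.filter (fun a => a < 2 ^ (l - 1))).card : ℝ) ≤
                2 ^ K1 * (1 / Real.log 2) ^ 3 * (Real.log x) ^ 3 * q +
                2 * (3 ^ 3 * (Real.log x) ^ 3) * q := by linarith
              _ = _ := by ring
          have hT : (0 : ℝ) ≤ (2 ^ K1 * (1 / Real.log 2) ^ 3 + 2 * 3 ^ 3) * (Real.log x) ^ 3 * q := by
            have h1 : 0 < Real.log 2 := by linarith
            positivity
          calc Real.sqrt (x : ℝ) ≤ 2 * (C * (((l - 1 : ℕ)) : ℝ) ^ c *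
                ((A.filter (fun a => a < 2 ^ (l - 1))).card : ℝ)) := by linarith
            _ ≤ 2 * (C * (3 ^ c * (Real.log x) ^ c) *
                ((2 ^ K1 * (1 / Real.log 2) ^ 3 + 2 * 3 ^ 3) * (Real.log x) ^ 3 * q)) := by
                apply mul_le_mul_of_nonneg_left _ (by norm_num)
                apply mul_le_mul _ b14 (Nat.cast_nonneg _) (by positivity)
                exact mul_le_mul_of_nonneg_left b13 hC.le
            _ = q * ((2 * C * 3 ^ c * (2 ^ K1 * (1 / Real.log 2) ^ 3 + 2 * 3 ^ 3)) *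
                (Real.log x) ^ (c + 3)) := by ring
            _ ≤ q * ((C2 + C3) * (Real.log x) ^ (c + 3)) := by
                apply mul_le_mul_of_nonneg_left _ (by linarith)
                apply mul_le_mul_of_nonneg_right _ (by positivity)
                have : 0 ≤ (2 : ℝ) ^ (K1 + 2) / (Real.log 2) ^ (c + 3) := by
                  have h1 : 0 < Real.log 2 := by linarith
                  positivity
                rw [hC3]
                linarith)
  refine ⟨A, C2 + C3, c + 3, hC', ?_, ?_⟩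
  · intro n hn
    have := h1 n
    simp only [if_pos hn] at this
    exact this
  · intro x hx
    have := h2 x
    simp only [if_pos hx] at this
    exact this

end Pool.Agent.Helper11.T5
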