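import Pool.Agent.Helper42.T5.CountAll

/-!
# T5a (MP_12a1af_nt): the counting function when some scales are not used
-/

set_option autoImplicit false

namespace Pool.Agent.Helper11.T5

open Finset Pool.Agent.Helper44.T4 Pool.Agent.Helper42.T5

/-- for a positive exponent, `M ≤ (log x) ^ δ` for all large `x` -/
theorem exists_log_rpow_ge (δ : ℝ) (hδ : 0 < δ) (M : ℝ) :
    ∃ x0 : ℕ, 2 ≤ x0 ∧ ∀ x : ℕ, x0 ≤ x → M ≤ (Real.log x) ^ δ := by
  have h1 : Filter.Tendsto (fun x : ℕ => (Real.log (x : ℝ)) ^ δ) Filter.atTop Filter.atTop :=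
    (tendsto_rpow_atTop hδ).comp (Real.tendsto_log_atTop.comp tendsto_natCast_atTop_atTop)
  obtain ⟨a, ha⟩ := Filter.eventually_atTop.1 (h1.eventually_ge_atTop M)
  exact ⟨max a 2, le_max_right _ _, fun x hx => ha x ((le_max_left _ _).trans hx)⟩

theorem chain_mono {N : ℕ → ℕ} (hN : ∀ K, 2 * N K ≤ N (K + 1)) : Monotone N :=
  monotone_nat_of_le_succ fun K => by have := hN K; omega

/-- **the counting function with gaps** -/
theorem count_gaps {N : ℕ → ℕ} (hN : ∀ K, 2 * N K ≤ N (K + 1)) (hN0 : 1 ≤ N 0)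
    {K1 c : ℕ} {C2 : ℝ} (hC2 : 0 < C2) {B : Set ℕ} (hB : 1 ∈ B) {Used : ℕ → Prop}
    (h : ∀ K, K1 ≤ K → Used K → ∀ x : ℕ, 2 * N (K + 1) ≤ x → Real.sqrt (N K) ≤
        C2 * (K : ℝ) ^ c * ((B ∩ Set.Iio x).ncard : ℝ))
    {Λ c0 : ℝ} (hΛ : 1 ≤ Λ) (hc0 : 0 < c0) (hc1 : c0 ≤ 1 / 2) {b : ℕ → ℝ}
    (G1 : ∀ K, K1 ≤ K → Real.log (N (K + 2)) ≤ Real.log (N K) + Λ * (K : ℝ) ^ (1 - c0))
    (G2 : ∀ K, K1 ≤ K → ∃ K', K1 ≤ K' ∧ K' ≤ K ∧ Used K' ∧
      Real.log (N K) ≤ Real.log (N K') + Λ * (K : ℝ) ^ (1 - c0))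
    (G3 : ∀ K, K1 ≤ K → (Used K ∧ (N (K + 2) : ℝ) ≤ Λ * N K) ∨
      ∃ j, |Real.log (N K) - b j| ≤ Λ * (K : ℝ) ^ (1 - c0)) :
    ∃ C3 : ℝ, 0 < C3 ∧ ∀ C4 : ℝ, C3 ≤ C4 →
      (∀ x : ℕ, 2 ≤ x → (∀ j, (Real.log x) ^ (1 - c0 / 2) ≤ |Real.log x - b j|) →
        Real.sqrt x / (C4 * (Real.log x) ^ c) ≤ ((B ∩ Set.Iio x).ncard : ℝ)) ∧
      ∀ x : ℕ, 2 ≤ x → Real.sqrt x * Real.exp (-(C4 * (Real.log x) ^ (1 - c0 / 2))) ≤
        ((B ∩ Set.Iio x).ncard : ℝ) := by
  have hlog2 : (0 : ℝ) < Real.log 2 := Real.log_pos (by norm_num)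
  have hlog2' : Real.log 2 < 1 := by linarith [Real.log_two_lt_d9]
  have hmono := chain_mono hN
  have hNpos : ∀ K, 1 ≤ N K := fun K =>
    (Nat.one_le_two_pow).trans (two_pow_le_chain hN hN0 K)
  obtain ⟨x1, hx1, hx1'⟩ := exists_log_rpow_ge (c0 / 2) (by linarith) (4 * Λ + 4)
  set x0 := max x1 (2 * N (K1 + 1)) with hx0
  have hx02 : 2 ≤ x0 := hx1.trans (le_max_left _ _)
  set D : ℝ := C2 * 2 ^ c with hD
  have hDp : 0 < D := by positivity
  refine ⟨2 * Λ * D + 2 * c + 2 + Real.sqrt x0 / (Real.log 2) ^ c + Real.sqrt x0 / Real.log 2,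
    by positivity, ?_⟩
  intro C4 hC4
  have p1 : 0 ≤ 2 * Λ * D := by positivity
  have p2 : (0 : ℝ) ≤ 2 * c := by positivity
  have p3 : 0 ≤ Real.sqrt x0 / (Real.log 2) ^ c := by positivity
  have p4 : 0 ≤ Real.sqrt x0 / Real.log 2 := by positivity
  have hC4p : 0 < C4 := by linarith
  -- small `x`
  have hone : ∀ x : ℕ, 2 ≤ x → (1 : ℝ) ≤ ((B ∩ Set.Iio x).ncard : ℝ) := by
    intro x hx
    have h1 : 1 ≤ (B ∩ Set.Iio x).ncard := by
      rw [Nat.one_le_iff_ne_zero, ← Nat.pos_iff_ne_zero,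
        Set.ncard_pos ((Set.finite_Iio x).subset Set.inter_subset_right)]
      exact ⟨1, hB, by rw [Set.mem_Iio]; omega⟩
    exact_mod_cast h1
  have hlogx : ∀ x : ℕ, 2 ≤ x → Real.log 2 ≤ Real.log x := by
    intro x hx
    apply Real.log_le_log (by norm_num)
    exact_mod_cast hx
  -- large `x`
  have hlarge : ∀ x : ℕ, x0 ≤ x → ∃ K, K1 ≤ K ∧ 2 * N (K + 1) ≤ x ∧ x < 2 * N (K + 2) ∧
      1 ≤ Real.log x ∧ Λ * (K : ℝ) ^ (1 - c0) ≤ 2 * Λ * (Real.log x) ^ (1 - c0) ∧
      (4 * Λ + 4) * (Real.log x) ^ (1 - c0) ≤ (Real.log x) ^ (1 - c0 / 2) ∧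
      1 ≤ (Real.log x) ^ (1 - c0) := by
    intro x hx
    obtain ⟨K, hK, hK2, hK3⟩ := exists_scale hN hN0 K1 x ((le_max_right _ _).trans hx)
    have e1 := hx1' x ((le_max_left _ _).trans hx)
    have hL0 : 0 < Real.log x := hlog2.trans_le (hlogx x (hx02.trans hx))
    have hL1 : 1 ≤ Real.log x := by
      by_contra hcon
      push Not at hcon
      have := Real.rpow_lt_one hL0.le hcon (by linarith : 0 < c0 / 2)
      linarith
    refine ⟨K, hK, hK2, hK3, hL1, ?_, ?_, Real.one_le_rpow hL1 (by linarith)⟩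
    · have e2 : (K : ℝ) ≤ 2 * Real.log x := by
        apply scale_le_log hN hN0
        have := hN K
        omega
      have e3 : (K : ℝ) ^ (1 - c0) ≤ (2 * Real.log x) ^ (1 - c0) :=
        Real.rpow_le_rpow (Nat.cast_nonneg _) e2 (by linarith)
      rw [Real.mul_rpow (by norm_num) hL0.le] at e3
      have e4 : (2 : ℝ) ^ (1 - c0) ≤ 2 := by
        calc (2 : ℝ) ^ (1 - c0) ≤ 2 ^ (1 : ℝ) :=
              Real.rpow_le_rpow_of_exponent_le (by norm_num) (by linarith)
          _ = 2 := by rw [Real.rpow_one]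
      have e5 : 0 ≤ (Real.log x) ^ (1 - c0) := Real.rpow_nonneg hL0.le _
      have e6 : (K : ℝ) ^ (1 - c0) ≤ 2 * (Real.log x) ^ (1 - c0) :=
        e3.trans (mul_le_mul_of_nonneg_right e4 e5)
      calc Λ * (K : ℝ) ^ (1 - c0) ≤ Λ * (2 * (Real.log x) ^ (1 - c0)) :=
            mul_le_mul_of_nonneg_left e6 (by linarith)
        _ = _ := by ring
    · have e2 : (Real.log x) ^ (1 - c0 / 2) =
          (Real.log x) ^ (c0 / 2) * (Real.log x) ^ (1 - c0) := by
        rw [← Real.rpow_add hL0]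
        congr 1
        ring
      rw [e2]
      exact mul_le_mul_of_nonneg_right e1 (Real.rpow_nonneg hL0.le _)
  have hlx : ∀ x K : ℕ, 2 * N (K + 1) ≤ x → x < 2 * N (K + 2) → K1 ≤ K →
      Real.log (N K) ≤ Real.log x ∧
        Real.log x ≤ 1 + Real.log (N K) + Λ * (K : ℝ) ^ (1 - c0) := by
    intro x K hK2 hK3 hK
    constructor
    · apply Real.log_le_log
      · exact_mod_cast hNpos K
      · have := hN K
        exact_mod_cast (by omega : N K ≤ x)
    · have e1 : Real.log x ≤ Real.log (2 * N (K + 2)) := by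
        apply Real.log_le_log
        · have := hNpos (K + 1)
          exact_mod_cast (by omega : 0 < x)
        · exact_mod_cast hK3.le
      have e2 : (0 : ℝ) < N (K + 2) := by exact_mod_cast hNpos (K + 2)
      rw [Real.log_mul (by norm_num) e2.ne'] at e1
      have e3 := G1 K hK
      linarith
  constructor
  · intro x hx hfar
    have hL2 := hlogx x hx
    have hL0 : 0 < Real.log x := hlog2.trans_le hL2
    rw [div_le_iff₀ (by positivity)]
    rcases lt_or_ge x x0 with hlt | hge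
    · have h2 : Real.sqrt x ≤ Real.sqrt x0 := Real.sqrt_le_sqrt (by exact_mod_cast hlt.le)
      have h3 : Real.sqrt x0 / (Real.log 2) ^ c ≤ C4 := by linarith
      rw [div_le_iff₀ (by positivity)] at h3
      have h4 : C4 * (Real.log 2) ^ c ≤ C4 * (Real.log x) ^ c :=
        mul_le_mul_of_nonneg_left (pow_le_pow_left₀ hlog2.le hL2 c) hC4p.le
      calc Real.sqrt x ≤ C4 * (Real.log x) ^ c := by linarith
        _ = 1 * (C4 * (Real.log x) ^ c) := (one_mul _).symm
        _ ≤ _ := mul_le_mul_of_nonneg_right (hone x hx) (by positivity)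
    · obtain ⟨K, hK, hK2, hK3, hL1, hE1, hE2, hE3⟩ := hlarge x hge
      obtain ⟨f1, f2⟩ := hlx x K hK2 hK3 hK
      rcases G3 K hK with ⟨hU, hr⟩ | ⟨j, hj⟩
      · have g1 := count_from_scale hN hN0 hC2 h K hK hU x hK2
        have g2 : (x : ℝ) ≤ (2 * Λ) ^ 2 * N K := by
          have g3 : (x : ℝ) ≤ 2 * N (K + 2) := by exact_mod_cast hK3.le
          have g4 : (0 : ℝ) ≤ N K := Nat.cast_nonneg _
          have g5 : Λ * N K ≤ Λ * (Λ * N K) := by
            have : 0 ≤ Λ * (N K : ℝ) := by positivity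
            nlinarith
          nlinarith
        have g3 : Real.sqrt x ≤ 2 * Λ * Real.sqrt (N K) := by
          calc Real.sqrt x ≤ Real.sqrt ((2 * Λ) ^ 2 * N K) := Real.sqrt_le_sqrt g2
            _ = 2 * Λ * Real.sqrt (N K) := by
              rw [Real.sqrt_mul (by positivity), Real.sqrt_sq (by positivity)]
        calc Real.sqrt x ≤ 2 * Λ * Real.sqrt (N K) := g3
          _ ≤ 2 * Λ * (D * (Real.log x) ^ c * ((B ∩ Set.Iio x).ncard : ℝ)) := by
              apply mul_le_mul_of_nonneg_left _ (by linarith)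
              rw [hD]
              exact g1
          _ = ((B ∩ Set.Iio x).ncard : ℝ) * ((2 * Λ * D) * (Real.log x) ^ c) := by ring
          _ ≤ ((B ∩ Set.Iio x).ncard : ℝ) * (C4 * (Real.log x) ^ c) := by
              apply mul_le_mul_of_nonneg_left _ (Nat.cast_nonneg _)
              apply mul_le_mul_of_nonneg_right _ (by positivity)
              linarith
      · exfalso
        have g1 := hfar j
        have g2 : |Real.log x - b j| ≤ |Real.log x - Real.log (N K)| + |Real.log (N K) - b j| :=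
          abs_sub_le _ _ _
        have g3 : |Real.log x - Real.log (N K)| ≤ 1 + Λ * (K : ℝ) ^ (1 - c0) := by
          rw [abs_of_nonneg (by linarith)]
          linarith
        nlinarith
  · intro x hx
    have hL2 := hlogx x hx
    have hL0 : 0 < Real.log x := hlog2.trans_le hL2
    rcases lt_or_ge x x0 with hlt | hge
    · have h2 : Real.sqrt x ≤ Real.sqrt x0 := Real.sqrt_le_sqrt (by exact_mod_cast hlt.le)
      have h3 : Real.sqrt x0 / Real.log 2 ≤ C4 := by linarith
      rw [div_le_iff₀ hlog2] at h3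
      have h4 : Real.log 2 ≤ (Real.log x) ^ (1 - c0 / 2) := by
        calc Real.log 2 = (Real.log 2) ^ (1 : ℝ) := by rw [Real.rpow_one]
          _ ≤ (Real.log 2) ^ (1 - c0 / 2) :=
            Real.rpow_le_rpow_of_exponent_ge hlog2 hlog2'.le (by linarith)
          _ ≤ _ := Real.rpow_le_rpow hlog2.le hL2 (by linarith)
      have h5 : Real.sqrt x ≤ C4 * (Real.log x) ^ (1 - c0 / 2) :=
        h2.trans (h3.trans (mul_le_mul_of_nonneg_left h4 hC4p.le))
      have h6 : Real.sqrt x ≤ Real.exp (C4 * (Real.log x) ^ (1 - c0 / 2)) :=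
        h5.trans (by linarith [Real.add_one_le_exp (C4 * (Real.log x) ^ (1 - c0 / 2))])
      refine le_trans ?_ (hone x hx)
      rw [Real.exp_neg, ← div_eq_mul_inv, div_le_one (Real.exp_pos _)]
      exact h6
    · obtain ⟨K, hK, hK2, hK3, hL1, hE1, hE2, hE3⟩ := hlarge x hge
      obtain ⟨f1, f2⟩ := hlx x K hK2 hK3 hK
      obtain ⟨K', hK', hKK, hU, hr⟩ := G2 K hK
      have g1 := count_from_scale hN hN0 hC2 h K' hK' hU x
        (le_trans (Nat.mul_le_mul_left _ (hmono (by omega))) hK2)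
      set R : ℝ := (Real.log x) ^ (1 - c0 / 2) with hR
      set Q : ℝ := ((B ∩ Set.Iio x).ncard : ℝ) with hQ
      have hQ0 : 0 ≤ Q := Nat.cast_nonneg _
      have hR1 : 1 ≤ R := by nlinarith
      have hER : 2 * (Λ * (K : ℝ) ^ (1 - c0)) ≤ R := by nlinarith
      have hNK : (0 : ℝ) < N K' := by exact_mod_cast hNpos K'
      have hx0' : (0 : ℝ) < x := by exact_mod_cast (by omega : 0 < x)
      have g2 : Real.sqrt x ≤ Real.sqrt (N K') * Real.exp R := by
        have e1 : (x : ℝ) ≤ N K' * Real.exp (2 * R) := by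
          have e0 : (N K' : ℝ) * Real.exp (2 * R) = Real.exp (Real.log (N K') + 2 * R) := by
            rw [Real.exp_add, Real.exp_log hNK]
          rw [e0]
          calc (x : ℝ) = Real.exp (Real.log x) := (Real.exp_log hx0').symm
            _ ≤ _ := Real.exp_le_exp.2 (by linarith)
        calc Real.sqrt x ≤ Real.sqrt (N K' * Real.exp (2 * R)) := Real.sqrt_le_sqrt e1
          _ = Real.sqrt (N K') * Real.exp R := by
            rw [Real.sqrt_mul hNK.le, show 2 * R = R + R by ring, Real.exp_add,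
              Real.sqrt_mul_self (Real.exp_pos _).le]
      have g3 : (Real.log x) ^ c ≤ Real.exp (2 * c * R) := by
        have e1 : Real.log (Real.log x) ≤ 2 * R := by
          have := Real.log_le_rpow_div hL0.le (by linarith : 0 < 1 - c0 / 2)
          refine this.trans ?_
          rw [← hR, div_le_iff₀ (by linarith)]
          nlinarith
        have e2 : (0 : ℝ) ≤ c := Nat.cast_nonneg _
        calc (Real.log x) ^ c = Real.exp (Real.log (Real.log x)) ^ c := by
              rw [Real.exp_log hL0]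
          _ = Real.exp (c * Real.log (Real.log x)) := by rw [← Real.exp_nat_mul]
          _ ≤ _ := Real.exp_le_exp.2 (by nlinarith)
      have g4 : D ≤ Real.exp (D * R) := by
        have e1 := Real.add_one_le_exp (D * R)
        nlinarith
      have g5 : Real.sqrt x ≤ Real.exp (C4 * R) * Q := by
        calc Real.sqrt x ≤ Real.sqrt (N K') * Real.exp R := g2
          _ ≤ (D * (Real.log x) ^ c * Q) * Real.exp R := by
            apply mul_le_mul_of_nonneg_right _ (Real.exp_pos _).le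
            rw [hD]
            exact g1
          _ ≤ (Real.exp (D * R) * Real.exp (2 * c * R) * Q) * Real.exp R := by
            apply mul_le_mul_of_nonneg_right _ (Real.exp_pos _).le
            apply mul_le_mul_of_nonneg_right _ hQ0
            exact mul_le_mul g4 g3 (by positivity) (Real.exp_pos _).le
          _ = Real.exp (D * R + 2 * c * R + R) * Q := by
            rw [Real.exp_add, Real.exp_add]
            ring
          _ ≤ Real.exp (C4 * R) * Q := by
            apply mul_le_mul_of_nonneg_right _ hQ0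
            apply Real.exp_le_exp.2
            have e1 : D + 2 * c + 1 ≤ C4 := by nlinarith
            nlinarith
      rw [Real.exp_neg, ← div_eq_mul_inv, div_le_iff₀ (Real.exp_pos _), mul_comm]
      exact g5

end Pool.Agent.Helper11.T5
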